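import Mathlib

namespace Pool.Agent.Results.MP_052694_co.NimPeriods

/-- The least natural number not in the finite set `A`. -/
noncomputable def mex (A : Finset ℕ) : ℕ := sInf {m : ℕ | m ∉ A}

/-- The Sprague-Grundy value of a pile of `n` tokens in the subtraction game with subtraction
set `S` (moves remove `s` tokens, `s ∈ S`, `0 < s`, `s ≤ n`; normal play). -/
noncomputable def nimValue (S : Finset ℕ) (n : ℕ) : ℕ :=
  mex ((S.filter (fun s => 0 < s ∧ s ≤ n)).attach.image (fun s => nimValue S (n - s.1)))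
termination_by n
decreasing_by
  have h := (Finset.mem_filter.mp s.2).2
  omega

/-- The zero-indicator of the nim-sequence. -/
noncomputable def zeroInd (S : Finset ℕ) (n : ℕ) : ℕ := if nimValue S n = 0 then 0 else 1

/-- `p` is a positive eventual period of the sequence `a`. -/
def EventualPeriod (a : ℕ → ℕ) (p : ℕ) : Prop :=
  1 ≤ p ∧ ∃ n₀ : ℕ, ∀ n : ℕ, n₀ ≤ n → a (n + p) = a n

/-- The period: the least positive eventual period. -/
noncomputable def period (a : ℕ → ℕ) : ℕ := sInf {p : ℕ | EventualPeriod a p}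

/-- Unfolding: the nim value is the mex of the values of the options. -/
theorem nimValue_eq (S : Finset ℕ) (n m : ℕ)
    (h1 : ∀ s ∈ S, 0 < s → s ≤ n → nimValue S (n - s) ≠ m)
    (h2 : ∀ j < m, ∃ s ∈ S, 0 < s ∧ s ≤ n ∧ nimValue S (n - s) = j) :
    nimValue S n = m := by
  rw [nimValue, mex]
  apply le_antisymm
  · apply Nat.sInf_le
    simp only [Set.mem_ofPred_eq, Finset.mem_image, Finset.mem_attach, true_and, Subtype.exists,
      not_exists]
    intro s hs
    have hs' := Finset.mem_filter.mp hs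
    exact h1 s hs'.1 hs'.2.1 hs'.2.2
  · by_contra hlt
    push Not at hlt
    have hne : {k : ℕ | k ∉ (S.filter (fun s => 0 < s ∧ s ≤ n)).attach.image
        (fun s => nimValue S (n - s.1))}.Nonempty := by
      obtain ⟨k, hk⟩ := Infinite.exists_notMem_finset
        ((S.filter (fun s => 0 < s ∧ s ≤ n)).attach.image (fun s => nimValue S (n - s.1)))
      exact ⟨k, hk⟩
    have hmem := Nat.sInf_mem hne
    obtain ⟨s, hs, hs0, hsn, hv⟩ := h2 _ hlt
    apply hmem
    rw [Finset.mem_image]
    exact ⟨⟨s, Finset.mem_filter.mpr ⟨hs, hs0, hsn⟩⟩, Finset.mem_attach _ _, hv⟩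

/-- The subtraction set of the counterexample. -/
def S₀ : Finset ℕ := {2, 3, 5, 8, 9, 10}

/-- One period of the nim-sequence of `S₀`. -/
def tab : List ℕ :=
  [0, 0, 1, 1, 2, 2, 3, 0, 4, 1, 3, 2, 4, 0, 0, 1, 1, 2, 2, 4, 0, 3, 1, 4, 2, 3]

/-- The claimed value. -/
def val (r : ℕ) : ℕ := tab.getD r 0

theorem key_small : ∀ n < 10, (∀ s ∈ S₀, 0 < s → s ≤ n → val ((n - s) % 26) ≠ val (n % 26)) ∧
    (∀ j < val (n % 26), ∃ s ∈ S₀, 0 < s ∧ s ≤ n ∧ val ((n - s) % 26) = j) := by
  decide

theorem key_large : ∀ r < 26, (∀ s ∈ S₀, val ((r + 26 - s) % 26) ≠ val r) ∧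
    (∀ j < val r, ∃ s ∈ S₀, val ((r + 26 - s) % 26) = j) := by
  decide

theorem S₀_bd : ∀ s ∈ S₀, 0 < s ∧ s ≤ 10 := by decide

theorem nim_S₀ (n : ℕ) : nimValue S₀ n = val (n % 26) := by
  induction n using Nat.strong_induction_on with
  | _ n ih =>
    apply nimValue_eq
    · intro s hs h0 hsn
      rw [ih (n - s) (by omega)]
      rcases lt_or_ge n 10 with hn | hn
      · exact (key_small n hn).1 s hs h0 hsn
      · have hb := S₀_bd s hs
        have h := (key_large (n % 26) (Nat.mod_lt _ (by norm_num))).1 s hs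
        have e : (n - s) % 26 = (n % 26 + 26 - s) % 26 := by omega
        rw [e]
        exact h
    · intro j hj
      rcases lt_or_ge n 10 with hn | hn
      · obtain ⟨s, hs, h0, hsn, hv⟩ := (key_small n hn).2 j hj
        refine ⟨s, hs, h0, hsn, ?_⟩
        rw [ih (n - s) (by omega)]
        exact hv
      · obtain ⟨s, hs, hv⟩ := (key_large (n % 26) (Nat.mod_lt _ (by norm_num))).2 j hj
        have hb := S₀_bd s hs
        refine ⟨s, hs, hb.1, by omega, ?_⟩
        rw [ih (n - s) (by omega)]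
        have e : (n - s) % 26 = (n % 26 + 26 - s) % 26 := by omega
        rw [e]
        exact hv

theorem zero_S₀ (n : ℕ) : zeroInd S₀ n = if val (n % 26) = 0 then 0 else 1 := by
  rw [zeroInd, nim_S₀]

theorem noPeriodG : ∀ p < 26, 1 ≤ p → ∃ r < 26, val ((r + p) % 26) ≠ val r := by
  decide

theorem noPeriodV : ∀ p < 13, 1 ≤ p →
    ∃ r < 26, (if val ((r + p) % 26) = 0 then 0 else 1 : ℕ) ≠ (if val r = 0 then 0 else 1) := by
  decide

theorem periodV13 : ∀ r < 26, (if val ((r + 13) % 26) = 0 then 0 else 1 : ℕ) =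
    (if val r = 0 then 0 else 1) := by
  decide

theorem periodG : period (nimValue S₀) = 26 := by
  apply le_antisymm
  · apply Nat.sInf_le
    refine ⟨by norm_num, 0, fun n _ => ?_⟩
    rw [nim_S₀, nim_S₀]
    congr 1
    omega
  · by_contra hlt
    push Not at hlt
    have hne : {p : ℕ | EventualPeriod (nimValue S₀) p}.Nonempty :=
      ⟨26, by norm_num, 0, fun n _ => by rw [nim_S₀, nim_S₀]; congr 1; omega⟩
    have hmem := Nat.sInf_mem hne
    obtain ⟨h1, n₀, hper⟩ := hmem
    obtain ⟨r, hr, hne'⟩ := noPeriodG _ hlt h1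
    apply hne'
    have h := hper (26 * n₀ + r) (by omega)
    rw [nim_S₀, nim_S₀] at h
    have e1 : (26 * n₀ + r) % 26 = r := by omega
    rw [e1] at h
    rw [← h]
    congr 1
    rw [Nat.add_assoc, Nat.mul_add_mod]
    rfl

theorem periodV : period (zeroInd S₀) = 13 := by
  have hV : ∀ n, zeroInd S₀ (n + 13) = zeroInd S₀ n := by
    intro n
    rw [zero_S₀, zero_S₀]
    have h := periodV13 (n % 26) (Nat.mod_lt _ (by norm_num))
    have e : (n + 13) % 26 = (n % 26 + 13) % 26 := by omega
    rw [e]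
    exact h
  apply le_antisymm
  · apply Nat.sInf_le
    exact ⟨by norm_num, 0, fun n _ => hV n⟩
  · by_contra hlt
    push Not at hlt
    have hne : {p : ℕ | EventualPeriod (zeroInd S₀) p}.Nonempty :=
      ⟨13, by norm_num, 0, fun n _ => hV n⟩
    have hmem := Nat.sInf_mem hne
    obtain ⟨h1, n₀, hper⟩ := hmem
    obtain ⟨r, hr, hne'⟩ := noPeriodV _ hlt h1
    apply hne'
    have h := hper (26 * n₀ + r) (by omega)
    rw [zero_S₀, zero_S₀] at h
    have e1 : (26 * n₀ + r) % 26 = r := by omega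
    rw [e1] at h
    rw [← h]
    rw [Nat.add_assoc, Nat.mul_add_mod]
    rfl

/-- For the subtraction set `{2, 3, 5, 8, 9, 10}` the nim-sequence has period `26` while its
zero-indicator has period `13`; hence it is false that the two periods always agree. -/
theorem result :
    (∃ S : Finset ℕ, S.Nonempty ∧ (∀ s ∈ S, 0 < s) ∧
      EventualPeriod (nimValue S) (period (nimValue S)) ∧
      EventualPeriod (zeroInd S) (period (zeroInd S)) ∧
      period (nimValue S) ≠ period (zeroInd S)) ∧
    period (nimValue {2, 3, 5, 8, 9, 10}) = 26 ∧ period (zeroInd {2, 3, 5, 8, 9, 10}) = 13 := by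
  have hG : EventualPeriod (nimValue S₀) 26 :=
    ⟨by norm_num, 0, fun n _ => by rw [nim_S₀, nim_S₀]; congr 1; omega⟩
  have hV : EventualPeriod (zeroInd S₀) 13 := by
    refine ⟨by norm_num, 0, fun n _ => ?_⟩
    rw [zero_S₀, zero_S₀]
    have h := periodV13 (n % 26) (Nat.mod_lt _ (by norm_num))
    have e : (n + 13) % 26 = (n % 26 + 13) % 26 := by omega
    rw [e]
    exact h
  refine ⟨⟨S₀, by decide, fun s hs => (S₀_bd s hs).1, ?_, ?_, ?_⟩, periodG, periodV⟩
  · rw [periodG]
    exact hG
  · rw [periodV]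
    exact hV
  · rw [periodG, periodV]
    norm_num

end Pool.Agent.Results.MP_052694_co.NimPeriods
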